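import Mathlib

set_option autoImplicit false

namespace Pool.Agent.AM1LA

open Relation

/-- One step of a static two-way device on a list of transition tables.  Cell number `i` (from
zero) of the list sits at position `i + 1`; position `0` and position `length + 1` are exits. -/
def stp {σ : Type} (Z : List (σ → σ → Bool → Prop)) (c c' : σ × ℕ) : Prop :=
  ∃ (i : ℕ) (τ : σ → σ → Bool → Prop) (b : Bool), Z[i]? = some τ ∧ c.2 = i + 1 ∧
    τ c.1 c'.1 b ∧ c'.2 = (if b then i + 2 else i)

/-- position at which the segment `Z` is entered from the given side (`true` = right). -/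
def ent {σ : Type} (Z : List (σ → σ → Bool → Prop)) (side : Bool) : ℕ :=
  if side then Z.length else 1

/-- exit position on the given side (`true` = right). -/
def ext {σ : Type} (Z : List (σ → σ → Bool → Prop)) (side : Bool) : ℕ :=
  if side then Z.length + 1 else 0

/-- The two-way behaviour of a segment. -/
def beh {σ : Type} (Z : List (σ → σ → Bool → Prop)) : Set ((σ × Bool) × (σ × Bool)) :=
  {p | ReflTransGen (stp Z) (p.1.1, ent Z p.1.2) (p.2.1, ext Z p.2.2)}

variable {σ : Type}

theorem stp_lift (X Z Y : List (σ → σ → Bool → Prop)) {s s' : σ} {i i' : ℕ}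
    (h : ReflTransGen (stp Z) (s, i) (s', i')) :
    ReflTransGen (stp (X ++ Z ++ Y)) (s, X.length + i) (s', X.length + i') := by
  have := ReflTransGen.lift (r := stp Z) (p := stp (X ++ Z ++ Y))
    (fun c : σ × ℕ => (c.1, X.length + c.2)) ?_ _ _ h
  · exact this
  · rintro ⟨a, k⟩ ⟨a', k'⟩ ⟨i, τ, b, hi, hk, hτ, hk'⟩
    refine ⟨X.length + i, τ, b, ?_, ?_, hτ, ?_⟩
    · rw [List.append_assoc, List.getElem?_append_right (by omega)]
      have hlt : i < Z.length := by
        by_contra hcon
        rw [List.getElem?_eq_none (by omega)] at hi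
        exact absurd hi (by simp)
      rw [List.getElem?_append_left (by omega)]
      simpa using hi
    · simp at hk ⊢; omega
    · simp at hk' ⊢; rw [hk']; split <;> omega

/-- the simulation predicate used in the replacement lemma -/
def Sim (X Z1 Z2 Y : List (σ → σ → Bool → Prop)) (a2 : σ × ℕ) (c : σ × ℕ) : Prop :=
  (c.2 ≤ X.length ∧ ReflTransGen (stp (X ++ Z2 ++ Y)) a2 c) ∨
  (∃ t, c.2 = X.length + Z1.length + 1 + t ∧
    ReflTransGen (stp (X ++ Z2 ++ Y)) a2 (c.1, X.length + Z2.length + 1 + t)) ∨
  (∃ (e : σ) (side : Bool) (i : ℕ),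
    ReflTransGen (stp (X ++ Z2 ++ Y)) a2 (e, X.length + ent Z2 side) ∧
    c.2 = X.length + i ∧ 1 ≤ i ∧ i ≤ Z1.length ∧
    ReflTransGen (stp Z1) (e, ent Z1 side) (c.1, i))

theorem sim_exit {X Z1 Z2 Y : List (σ → σ → Bool → Prop)} (hb : beh Z1 ⊆ beh Z2)
    {a2 : σ × ℕ} {e s : σ} {side side' : Bool}
    (h1 : ReflTransGen (stp (X ++ Z2 ++ Y)) a2 (e, X.length + ent Z2 side))
    (h2 : ReflTransGen (stp Z1) (e, ent Z1 side) (s, ext Z1 side')) :
    Sim X Z1 Z2 Y a2 (s, X.length + ext Z1 side') := by
  have h3 : ((e, side), (s, side')) ∈ beh Z2 := hb h2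
  have h4 := stp_lift X Z2 Y (show ReflTransGen (stp Z2) (e, ent Z2 side) (s, ext Z2 side') from h3)
  have h5 := h1.trans h4
  cases side' with
  | false =>
    left
    simp only [ext] at h5 ⊢
    refine ⟨by simp, ?_⟩
    simpa using h5
  | true =>
    right; left
    refine ⟨0, by simp [ext]; omega, ?_⟩
    simp only [ext] at h5
    simpa [Nat.add_assoc] using h5

theorem sim_enter {X Z1 Z2 Y : List (σ → σ → Bool → Prop)} (hb : beh Z1 ⊆ beh Z2)
    {a2 : σ × ℕ} {s : σ} (side : Bool)
    (h1 : ReflTransGen (stp (X ++ Z2 ++ Y)) a2 (s, X.length + ent Z2 side)) :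
    Sim X Z1 Z2 Y a2 (s, X.length + ent Z1 side) := by
  by_cases hz : Z1.length = 0
  · have h2 : ReflTransGen (stp Z1) (s, ent Z1 side) (s, ext Z1 (!side)) := by
      have : ent Z1 side = ext Z1 (!side) := by cases side <;> simp [ent, ext, hz]
      rw [this]
    have := sim_exit (X := X) (Y := Y) hb h1 h2
    have h3 : ent Z1 side = ext Z1 (!side) := by cases side <;> simp [ent, ext, hz]
    rw [h3]; exact this
  · right; right
    refine ⟨s, side, ent Z1 side, h1, rfl, ?_, ?_, ReflTransGen.refl⟩
    · cases side <;> simp [ent]; omega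
    · cases side <;> simp [ent]; omega

theorem sim_step {X Z1 Z2 Y : List (σ → σ → Bool → Prop)} (hb : beh Z1 ⊆ beh Z2)
    {a2 c c' : σ × ℕ} (hs : Sim X Z1 Z2 Y a2 c) (hc : stp (X ++ Z1 ++ Y) c c') :
    Sim X Z1 Z2 Y a2 c' := by
  obtain ⟨s, k⟩ := c
  obtain ⟨s', k'⟩ := c'
  obtain ⟨i, τ, b, hi, hk, hτ, hk'⟩ := hc
  simp only at hk hτ hk'
  subst hk
  have hilt : i < (X ++ Z1 ++ Y).length := by
    by_contra hcon
    rw [List.getElem?_eq_none (by omega)] at hi
    exact absurd hi (by simp)
  simp only [List.length_append] at hilt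
  rcases hs with ⟨hle, hr⟩ | ⟨t, ht, hr⟩ | ⟨e, side, j, hr, hj, hj1, hj2, hin⟩
  · -- in X
    simp only at hle
    have hiX : i < X.length := by omega
    have hX : X[i]? = some τ := by
      rw [List.append_assoc, List.getElem?_append_left hiX] at hi; exact hi
    have hst : stp (X ++ Z2 ++ Y) (s, i + 1) (s', k') := by
      refine ⟨i, τ, b, ?_, rfl, hτ, hk'⟩
      rw [List.append_assoc, List.getElem?_append_left hiX]; exact hX
    have hr' := hr.tail hst
    by_cases hk2 : k' ≤ X.length
    · left; exact ⟨hk2, hr'⟩
    · have hb' : b = true := by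
        cases b with
        | true => rfl
        | false => simp at hk'; omega
      subst hb'
      simp only [if_true] at hk'
      have hkk : k' = X.length + 1 := by omega
      have := sim_enter (X := X) (Z1 := Z1) (Z2 := Z2) (Y := Y) hb (a2 := a2) (s := s') false
        (by simp only [ent]; rw [hkk] at hr'; simpa using hr')
      simp only [ent] at this
      rw [hkk]; simpa using this
  · -- in Y
    simp only at ht hr
    have hit : i = X.length + Z1.length + t := by omega
    have hY : Y[t]? = some τ := by
      rw [List.getElem?_append_right (by simp; omega)] at hi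
      have : i - (X ++ Z1).length = t := by simp; omega
      rwa [this] at hi
    have hY2 : (X ++ Z2 ++ Y)[X.length + Z2.length + t]? = some τ := by
      rw [List.getElem?_append_right (by simp)]
      have : X.length + Z2.length + t - (X ++ Z2).length = t := by simp
      rw [this]; exact hY
    have hst : stp (X ++ Z2 ++ Y) (s, X.length + Z2.length + 1 + t)
        (s', if b then X.length + Z2.length + t + 2 else X.length + Z2.length + t) := by
      refine ⟨X.length + Z2.length + t, τ, b, hY2, by simp; omega, hτ, rfl⟩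
    have hr' := hr.tail hst
    cases b with
    | true =>
      simp only [if_true] at hk' hr'
      right; left
      refine ⟨t + 1, by simp; omega, ?_⟩
      have : X.length + Z2.length + 1 + (t + 1) = X.length + Z2.length + t + 2 := by omega
      rw [this]; exact hr'
    | false =>
      simp only [Bool.false_eq_true, if_false] at hk' hr'
      by_cases ht0 : t = 0
      · subst ht0
        have := sim_enter (X := X) (Z1 := Z1) (Z2 := Z2) (Y := Y) hb (a2 := a2) (s := s') true
          (by simp only [ent]; simpa using hr')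
        simp only [ent] at this
        have hkk : k' = X.length + Z1.length := by omega
        rw [hkk]; simpa using this
      · right; left
        refine ⟨t - 1, by simp; omega, ?_⟩
        have : X.length + Z2.length + 1 + (t - 1) = X.length + Z2.length + t := by omega
        rw [this]; exact hr'
  · -- inside
    simp only at hj hin
    have hij : i = X.length + (j - 1) := by omega
    have hZ : Z1[j - 1]? = some τ := by
      rw [List.append_assoc, List.getElem?_append_right (by omega),
        List.getElem?_append_left (by omega)] at hi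
      have : i - X.length = j - 1 := by omega
      rwa [this] at hi
    have hst : stp Z1 (s, j) (s', if b then j + 1 else j - 1) := by
      refine ⟨j - 1, τ, b, hZ, by simp; omega, hτ, ?_⟩
      simp only; split <;> omega
    have hin' := hin.tail hst
    cases b with
    | true =>
      simp only [if_true] at hk' hin'
      by_cases hjl : j = Z1.length
      · have h := sim_exit (X := X) (Z1 := Z1) (Z2 := Z2) (Y := Y) hb (a2 := a2) (s := s')
          (side' := true) hr (by simp only [ext, if_true]; rw [← hjl]; exact hin')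
        simp only [ext, if_true] at h
        have hkk : k' = X.length + (Z1.length + 1) := by omega
        rw [hkk]; exact h
      · right; right
        exact ⟨e, side, j + 1, hr, by simp; omega, by omega, by omega, hin'⟩
    | false =>
      simp only [Bool.false_eq_true, if_false] at hk' hin'
      by_cases hjl : j = 1
      · subst hjl
        have h := sim_exit (X := X) (Z1 := Z1) (Z2 := Z2) (Y := Y) hb (a2 := a2) (s := s')
          (side' := false) hr (by simpa [ext] using hin')
        simp only [ext, Bool.false_eq_true, if_false] at h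
        have hkk : k' = X.length + 0 := by omega
        rw [hkk]; exact h
      · right; right
        exact ⟨e, side, j - 1, hr, by simp; omega, by omega, by omega, hin'⟩

theorem sim_run {X Z1 Z2 Y : List (σ → σ → Bool → Prop)} (hb : beh Z1 ⊆ beh Z2)
    {a2 c c' : σ × ℕ} (hs : Sim X Z1 Z2 Y a2 c)
    (hc : ReflTransGen (stp (X ++ Z1 ++ Y)) c c') :
    Sim X Z1 Z2 Y a2 c' := by
  induction hc with
  | refl => exact hs
  | tail _ h ih => exact sim_step hb ih h

/-- position translation for right outside configurations -/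
theorem sim_right {X Z1 Z2 Y : List (σ → σ → Bool → Prop)} {a2 : σ × ℕ} {s : σ} {t : ℕ}
    (h : Sim X Z1 Z2 Y a2 (s, X.length + Z1.length + 1 + t)) :
    ReflTransGen (stp (X ++ Z2 ++ Y)) a2 (s, X.length + Z2.length + 1 + t) := by
  rcases h with ⟨hle, _⟩ | ⟨t', ht, hr⟩ | ⟨e, side, j, hr, hj, hj1, hj2, hin⟩
  · simp only at hle; omega
  · simp only at ht hr
    have : t' = t := by omega
    subst this; exact hr
  · simp only at hj; omega

theorem sim_left {X Z1 Z2 Y : List (σ → σ → Bool → Prop)} {a2 : σ × ℕ} {s : σ} {i : ℕ}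
    (hi : i ≤ X.length) (h : Sim X Z1 Z2 Y a2 (s, i)) :
    ReflTransGen (stp (X ++ Z2 ++ Y)) a2 (s, i) := by
  rcases h with ⟨_, hr⟩ | ⟨t', ht, hr⟩ | ⟨e, side, j, hr, hj, hj1, hj2, hin⟩
  · exact hr
  · simp only at ht; omega
  · simp only at hj; omega

theorem sim_start_left {X Z1 Z2 Y : List (σ → σ → Bool → Prop)} (hb : beh Z1 ⊆ beh Z2) (s : σ) :
    Sim X Z1 Z2 Y (s, 1) (s, 1) := by
  by_cases hX : X.length = 0
  · have := sim_enter (X := X) (Z1 := Z1) (Z2 := Z2) (Y := Y) hb (a2 := (s, 1)) (s := s) false
      (by simp only [ent, hX]; exact ReflTransGen.refl)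
    simpa [ent, hX] using this
  · left; exact ⟨by simp; omega, ReflTransGen.refl⟩

theorem sim_start_right {X Z1 Z2 Y : List (σ → σ → Bool → Prop)} (hb : beh Z1 ⊆ beh Z2) (s : σ) :
    Sim X Z1 Z2 Y (s, (X ++ Z2 ++ Y).length) (s, (X ++ Z1 ++ Y).length) := by
  by_cases hY : Y.length = 0
  · have := sim_enter (X := X) (Z1 := Z1) (Z2 := Z2) (Y := Y) hb
      (a2 := (s, (X ++ Z2 ++ Y).length)) (s := s) true
      (by simp only [ent, List.length_append, hY]; exact ReflTransGen.refl)
    simpa [ent, hY] using this
  · right; left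
    refine ⟨Y.length - 1, by simp; omega, ?_⟩
    have : (X ++ Z2 ++ Y).length = X.length + Z2.length + 1 + (Y.length - 1) := by simp; omega
    rw [this]

theorem beh_congr_sub {X Z1 Z2 Y : List (σ → σ → Bool → Prop)} (hb : beh Z1 ⊆ beh Z2) :
    beh (X ++ Z1 ++ Y) ⊆ beh (X ++ Z2 ++ Y) := by
  rintro ⟨⟨s, side⟩, ⟨s', side'⟩⟩ h
  simp only [beh, Set.mem_ofPred_eq] at h ⊢
  have hstart : Sim X Z1 Z2 Y (s, ent (X ++ Z2 ++ Y) side) (s, ent (X ++ Z1 ++ Y) side) := by
    cases side with
    | false => simpa [ent] using sim_start_left (X := X) (Y := Y) hb s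
    | true => simpa [ent] using sim_start_right (X := X) (Y := Y) hb s
  have hend := sim_run hb hstart h
  cases side' with
  | false =>
    simp only [ext, Bool.false_eq_true, if_false] at hend ⊢
    exact sim_left (by omega) hend
  | true =>
    simp only [ext, if_true] at hend ⊢
    have e1 : (X ++ Z1 ++ Y).length + 1 = X.length + Z1.length + 1 + Y.length := by simp; omega
    have e2 : (X ++ Z2 ++ Y).length + 1 = X.length + Z2.length + 1 + Y.length := by simp; omega
    rw [e1] at hend
    rw [e2]
    exact sim_right hend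

theorem beh_congr {X Z1 Z2 Y : List (σ → σ → Bool → Prop)} (hb : beh Z1 = beh Z2) :
    beh (X ++ Z1 ++ Y) = beh (X ++ Z2 ++ Y) :=
  Set.Subset.antisymm (beh_congr_sub hb.subset) (beh_congr_sub hb.symm.subset)

end Pool.Agent.AM1LA
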