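import Mathlib
import Pool.Agent.MP_5436b5_lc.Static

set_option autoImplicit false

namespace Pool.Agent.AM1LA

open Relation

variable {Q A : Type}

/-- One step of an always-marking 1-limited automaton on the word `w`; a configuration is
(state, head position, number of marked cells). -/
def run (eL eR : Q → Finset (Q × Bool)) (eU eM : Q → A → Finset (Q × Bool)) (w : List A) :
    Q × ℕ × ℕ → Q × ℕ × ℕ → Prop :=
  fun x y : Q × ℕ × ℕ =>
    (x.2.1 = 0 ∧ (y.1, true) ∈ eL x.1 ∧ y.2.1 = 1 ∧ y.2.2 = x.2.2) ∨
    (x.2.1 = w.length + 1 ∧ (y.1, false) ∈ eR x.1 ∧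
      y.2.1 = w.length ∧ y.2.2 = x.2.2) ∨
    (∃ a : A, 1 ≤ x.2.1 ∧ w[x.2.1 - 1]? = some a ∧
      ∃ b : Bool,
        (y.1, b) ∈ (if x.2.1 ≤ x.2.2 then eM x.1 a else eU x.1 a) ∧
        y.2.1 = (if b then x.2.1 + 1 else x.2.1 - 1) ∧
        y.2.2 = max x.2.2 x.2.1)

/-- acceptance -/
def acc (eL eR : Q → Finset (Q × Bool)) (eU eM : Q → A → Finset (Q × Bool)) (pI : Q)
    (G : Finset Q) (w : List A) : Prop :=
  ∃ q : Q, ∃ i j : ℕ, ReflTransGen (run eL eR eU eM w) (pI, 1, 0) (q, i, j) ∧
    i = w.length + 1 ∧ ∃ q' ∈ G, (q', true) ∈ eR q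

variable {eL eR : Q → Finset (Q × Bool)} {eU eM : Q → A → Finset (Q × Bool)} {pI : Q}
  {G : Finset Q}

theorem getElem?_lt {α : Type} {l : List α} {i : ℕ} {a : α} (h : l[i]? = some a) :
    i < l.length := by
  by_contra hcon
  rw [List.getElem?_eq_none (by omega)] at h
  exact absurd h (by simp)

/-- basic invariant: the head is at most one cell beyond the marked zone. -/
theorem run_inv {w : List A} {c c' : Q × ℕ × ℕ} (h : run eL eR eU eM w c c')
    (hi : c.2.1 ≤ c.2.2 + 1 ∧ c.2.2 ≤ w.length) : c'.2.1 ≤ c'.2.2 + 1 ∧ c'.2.2 ≤ w.length := by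
  obtain ⟨s, i, j⟩ := c
  obtain ⟨s', i', j'⟩ := c'
  simp only at hi ⊢
  rcases h with ⟨h1, h2, h3, h4⟩ | ⟨h1, h2, h3, h4⟩ | ⟨a, h1, h2, b, h3, h4, h5⟩
  · simp only at h1 h3 h4; omega
  · simp only at h1 h3 h4; omega
  · simp only at h1 h2 h4 h5
    have := getElem?_lt h2
    cases b <;> simp only [Bool.false_eq_true, if_false, if_true] at h4 <;> omega

theorem reach_inv {w : List A} {c c' : Q × ℕ × ℕ} (h : ReflTransGen (run eL eR eU eM w) c c')
    (hi : c.2.1 ≤ c.2.2 + 1 ∧ c.2.2 ≤ w.length) : c'.2.1 ≤ c'.2.2 + 1 ∧ c'.2.2 ≤ w.length := by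
  induction h with
  | refl => exact hi
  | tail _ h ih => exact run_inv h ih

theorem run_mono {w : List A} {c c' : Q × ℕ × ℕ} (h : run eL eR eU eM w c c') :
    c.2.2 ≤ c'.2.2 := by
  rcases h with ⟨h1, h2, h3, h4⟩ | ⟨h1, h2, h3, h4⟩ | ⟨a, h1, h2, b, h3, h4, h5⟩ <;> omega

theorem reach_mono {w : List A} {c c' : Q × ℕ × ℕ}
    (h : ReflTransGen (run eL eR eU eM w) c c') : c.2.2 ≤ c'.2.2 := by
  induction h with
  | refl => exact le_rfl
  | tail _ h ih => exact ih.trans (run_mono h)

/-- configurations reached before the frontier passes `v` do not depend on what follows `v`. -/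
theorem reach_prefix {v y1 y2 : List A} (hy : y1 ≠ []) {c : Q × ℕ × ℕ}
    (h : ReflTransGen (run eL eR eU eM (v ++ y1)) (pI, 1, 0) c) (hj : c.2.2 ≤ v.length) :
    ReflTransGen (run eL eR eU eM (v ++ y2)) (pI, 1, 0) c := by
  have hlen : 1 ≤ y1.length := by
    rcases y1 with _ | ⟨a, l⟩
    · exact absurd rfl hy
    · simp
  induction h with
  | refl => exact ReflTransGen.refl
  | @tail c c' hr h ih =>
    have hm := run_mono h
    have hinv := reach_inv hr (by simp)
    refine (ih (by omega)).tail ?_
    obtain ⟨s, i, j⟩ := c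
    obtain ⟨s', i', j'⟩ := c'
    simp only at hm hinv hj
    rcases h with ⟨h1, h2, h3, h4⟩ | ⟨h1, h2, h3, h4⟩ | ⟨a, h1, h2, b, h3, h4, h5⟩
    · exact Or.inl ⟨h1, h2, h3, h4⟩
    · exfalso
      simp only [List.length_append] at h1
      omega
    · simp only at h1 h2 h4 h5
      have hi : i ≤ v.length := by omega
      refine Or.inr (Or.inr ⟨a, h1, ?_, b, h3, h4, h5⟩)
      simp only
      rw [List.getElem?_append_left (by omega)] at h2 ⊢
      exact h2

/-- a run which gets beyond `v` passes through a frontier configuration. -/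
theorem reach_split {v y : List A} {c : Q × ℕ × ℕ}
    (h : ReflTransGen (run eL eR eU eM (v ++ y)) (pI, 1, 0) c) :
    c.2.2 ≤ v.length ∨ ∃ p : Q,
      ReflTransGen (run eL eR eU eM (v ++ y)) (pI, 1, 0) (p, v.length + 1, v.length) ∧
      ReflTransGen (run eL eR eU eM (v ++ y)) (p, v.length + 1, v.length) c := by
  induction h with
  | refl => left; simp
  | @tail c c' hr h ih =>
    rcases ih with hle | ⟨p, hp1, hp2⟩
    · by_cases hc' : c'.2.2 ≤ v.length
      · exact Or.inl hc'
      · right
        have hinv := reach_inv hr (by simp)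
        have hce : c = (c.1, v.length + 1, v.length) := by
          obtain ⟨s, i, j⟩ := c
          simp only at hle hinv hc'
          rcases h with ⟨h1, h2, h3, h4⟩ | ⟨h1, h2, h3, h4⟩ | ⟨a, h1, h2, b, h3, h4, h5⟩
          · simp only at h4; omega
          · simp only at h4; omega
          · simp only at h5
            have : i = v.length + 1 := by omega
            have : j = v.length := by omega
            simp_all
        refine ⟨c.1, ?_, ?_⟩
        · rw [← hce]; exact hr
        · rw [← hce]; exact ReflTransGen.single h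
    · exact Or.inr ⟨p, hp1, hp2.tail h⟩

/-- determinism of the step relation -/
theorem run_det (hL : ∀ p, (eL p).card ≤ 1) (hR : ∀ p, (eR p).card ≤ 1)
    (hU : ∀ p a, (eU p a).card ≤ 1) (hM : ∀ p a, (eM p a).card ≤ 1) (w : List A) :
    Relator.RightUnique (run eL eR eU eM w) := by
  rintro ⟨s, i, j⟩ ⟨s1, i1, j1⟩ ⟨s2, i2, j2⟩ h h'
  rcases h with ⟨h1, h2, h3, h4⟩ | ⟨h1, h2, h3, h4⟩ | ⟨a, h1, h2, b, h3, h4, h5⟩ <;>
  rcases h' with ⟨g1, g2, g3, g4⟩ | ⟨g1, g2, g3, g4⟩ | ⟨a', g1, g2, b', g3, g4, g5⟩
  · simp only at *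
    have := Finset.card_le_one.mp (hL s) _ h2 _ g2
    simp_all
  · simp only at *; omega
  · simp only at *; omega
  · simp only at *; omega
  · simp only at *
    have := Finset.card_le_one.mp (hR s) _ h2 _ g2
    simp_all
  · simp only at *
    have := getElem?_lt g2; omega
  · simp only at *; omega
  · simp only at *
    have := getElem?_lt h2; omega
  · simp only at *
    have haa : a = a' := by rw [h2] at g2; exact Option.some.inj g2
    subst haa
    have hcard : (if i ≤ j then eM s a else eU s a).card ≤ 1 := by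
      split
      · exact hM s a
      · exact hU s a
    have := Finset.card_le_one.mp hcard _ h3 _ g3
    simp only [Prod.mk.injEq] at this
    obtain ⟨rfl, rfl⟩ := this
    simp_all

theorem frontier_unique_aux {v y : List A} (hy : y ≠ []) {p p' : Q}
    (h : ReflTransGen (run eL eR eU eM (v ++ y)) (p, v.length + 1, v.length)
      (p', v.length + 1, v.length)) : p = p' := by
  have hlen : 1 ≤ y.length := by
    rcases y with _ | ⟨a, l⟩
    · exact absurd rfl hy
    · simp
  rcases ReflTransGen.cases_head h with h | ⟨c, h1, h2⟩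
  · simpa using h
  · exfalso
    have hm := reach_mono h2
    simp only at hm
    rcases h1 with ⟨g1, g2, g3, g4⟩ | ⟨g1, g2, g3, g4⟩ | ⟨a', g1, g2, b', g3, g4, g5⟩
    · simp only at g1; omega
    · simp only [List.length_append] at g1; omega
    · simp only at g5; omega

theorem frontier_unique (hL : ∀ p, (eL p).card ≤ 1) (hR : ∀ p, (eR p).card ≤ 1)
    (hU : ∀ p a, (eU p a).card ≤ 1) (hM : ∀ p a, (eM p a).card ≤ 1) {v y : List A}
    (hy : y ≠ []) {p p' : Q}
    (h : ReflTransGen (run eL eR eU eM (v ++ y)) (pI, 1, 0) (p, v.length + 1, v.length))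
    (h' : ReflTransGen (run eL eR eU eM (v ++ y)) (pI, 1, 0) (p', v.length + 1, v.length)) :
    p = p' := by
  rcases ReflTransGen.total_of_right_unique (run_det hL hR hU hM _) h h' with g | g
  · exact frontier_unique_aux hy g
  · exact (frontier_unique_aux hy g).symm

/-- table of the left end marker -/
def tabL (eL : Q → Finset (Q × Bool)) : Q → Q → Bool → Prop :=
  fun s s' b => b = true ∧ (s', true) ∈ eL s

/-- table of the right end marker -/
def tabR (eR : Q → Finset (Q × Bool)) : Q → Q → Bool → Prop :=
  fun s s' b => b = false ∧ (s', false) ∈ eR s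

/-- table of a marked letter -/
def tabM (eM : Q → A → Finset (Q × Bool)) (a : A) : Q → Q → Bool → Prop :=
  fun s s' b => (s', b) ∈ eM s a

/-- the fully marked tape, with end markers -/
def full (eL eR : Q → Finset (Q × Bool)) (eM : Q → A → Finset (Q × Bool)) (w : List A) :
    List (Q → Q → Bool → Prop) :=
  [tabL eL] ++ w.map (tabM eM) ++ [tabR eR]

theorem full_zero (w : List A) : (full eL eR eM w)[0]? = some (tabL eL) := by
  simp [full]

theorem full_mid {w : List A} {i : ℕ} (hi : i < w.length) :
    (full eL eR eM w)[i + 1]? = (w[i]?).map (tabM eM) := by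
  simp only [full, List.cons_append, List.nil_append, List.getElem?_cons_succ]
  rw [List.getElem?_append_left (by simpa using hi)]
  simp

theorem full_last (w : List A) : (full eL eR eM w)[w.length + 1]? = some (tabR eR) := by
  simp only [full, List.cons_append, List.nil_append, List.getElem?_cons_succ]
  rw [List.getElem?_append_right (by simp)]
  simp

theorem full_length (w : List A) : (full eL eR eM w).length = w.length + 2 := by
  simp [full]

theorem run_to_stp {w : List A} {c c' : Q × ℕ × ℕ} (hc : c.2.2 = w.length)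
    (h : run eL eR eU eM w c c') :
    c'.2.2 = w.length ∧ stp (full eL eR eM w) (c.1, c.2.1 + 1) (c'.1, c'.2.1 + 1) := by
  obtain ⟨s, i, j⟩ := c
  obtain ⟨s', i', j'⟩ := c'
  simp only at hc ⊢
  subst hc
  rcases h with ⟨h1, h2, h3, h4⟩ | ⟨h1, h2, h3, h4⟩ | ⟨a, h1, h2, b, h3, h4, h5⟩
  · simp only at h1 h2 h3 h4
    subst h1 h3 h4
    exact ⟨rfl, 0, tabL eL, true, full_zero w, rfl, ⟨rfl, h2⟩, rfl⟩
  · simp only at h1 h2 h3 h4
    subst h1 h3 h4
    exact ⟨rfl, w.length + 1, tabR eR, false, full_last w, rfl, ⟨rfl, h2⟩, rfl⟩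
  · simp only at h1 h2 h3 h4 h5
    have hlt := getElem?_lt h2
    refine ⟨by omega, i, tabM eM a, b, ?_, rfl, ?_, ?_⟩
    · obtain ⟨k, rfl⟩ : ∃ k, i = k + 1 := ⟨i - 1, by omega⟩
      rw [full_mid (by omega)]
      simp only [Nat.add_sub_cancel] at h2
      rw [h2]; rfl
    · rw [if_pos (by omega)] at h3
      exact h3
    · simp only; rw [h4]; split <;> omega

theorem reach_to_stp {w : List A} {c c' : Q × ℕ × ℕ} (hc : c.2.2 = w.length)
    (h : ReflTransGen (run eL eR eU eM w) c c') :
    c'.2.2 = w.length ∧
      ReflTransGen (stp (full eL eR eM w)) (c.1, c.2.1 + 1) (c'.1, c'.2.1 + 1) := by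
  induction h with
  | refl => exact ⟨hc, ReflTransGen.refl⟩
  | tail _ h ih =>
    obtain ⟨h1, h2⟩ := ih
    obtain ⟨h3, h4⟩ := run_to_stp h1 h
    exact ⟨h3, h2.tail h4⟩

theorem stp_to_run {w : List A} {s : Q} {i : ℕ} {c' : Q × ℕ}
    (h : stp (full eL eR eM w) (s, i + 1) c') :
    ∃ i', c'.2 = i' + 1 ∧ run eL eR eU eM w (s, i, w.length) (c'.1, i', w.length) := by
  obtain ⟨s', k'⟩ := c'
  obtain ⟨k, τ, b, h1, h2, h3, h4⟩ := h
  simp only at h2 h3 h4 ⊢
  have hk : k = i := by omega
  subst hk
  have hlt := getElem?_lt h1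
  rw [full_length] at hlt
  by_cases h0 : k = 0
  · subst h0
    rw [full_zero] at h1
    have := Option.some.inj h1
    subst this
    obtain ⟨rfl, hm⟩ := h3
    refine ⟨1, by simpa using h4, Or.inl ⟨rfl, hm, rfl, rfl⟩⟩
  · by_cases hlast : k = w.length + 1
    · subst hlast
      rw [full_last] at h1
      have := Option.some.inj h1
      subst this
      obtain ⟨rfl, hm⟩ := h3
      refine ⟨w.length, by simpa using h4, Or.inr (Or.inl ⟨rfl, hm, rfl, rfl⟩)⟩
    · obtain ⟨l, rfl⟩ : ∃ l, k = l + 1 := ⟨k - 1, by omega⟩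
      rw [full_mid (by omega)] at h1
      rw [Option.map_eq_some_iff] at h1
      obtain ⟨a, ha, rfl⟩ := h1
      refine ⟨if b then l + 2 else l, by rw [h4]; split <;> omega, Or.inr (Or.inr ?_)⟩
      refine ⟨a, by simp, by simpa using ha, b, ?_, ?_, ?_⟩
      · simp only
        rw [if_pos (by omega)]
        exact h3
      · simp
      · simp only; omega

theorem stp_to_reach {w : List A} {s s' : Q} {i k' : ℕ}
    (h : ReflTransGen (stp (full eL eR eM w)) (s, i + 1) (s', k')) :
    ∃ i', k' = i' + 1 ∧
      ReflTransGen (run eL eR eU eM w) (s, i, w.length) (s', i', w.length) := by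
  have key : ∀ c : Q × ℕ, ReflTransGen (stp (full eL eR eM w)) (s, i + 1) c →
      ∃ i', c.2 = i' + 1 ∧
      ReflTransGen (run eL eR eU eM w) (s, i, w.length) (c.1, i', w.length) := by
    intro c hc
    induction hc with
    | refl => exact ⟨i, rfl, ReflTransGen.refl⟩
    | @tail c c' _ h ih =>
      obtain ⟨i', h1, h2⟩ := ih
      have hce : c = (c.1, i' + 1) := by rw [← h1]
      rw [hce] at h
      obtain ⟨i'', h3, h4⟩ := stp_to_run (eU := eU) h
      exact ⟨i'', h3, h2.tail h4⟩
  exact key _ h

/-- acceptance is transferred between prefixes with the same marked behaviour and a common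
frontier state. -/
theorem acc_transfer {v1 v2 : List A} {y : A} {p : Q}
    (hb : beh (v1.map (tabM eM)) ⊆ beh (v2.map (tabM eM)))
    (h2 : ReflTransGen (run eL eR eU eM (v2 ++ [y])) (pI, 1, 0) (p, v2.length + 1, v2.length))
    {q : Q} {j : ℕ}
    (h1 : ReflTransGen (run eL eR eU eM (v1 ++ [y])) (p, v1.length + 1, v1.length)
      (q, (v1 ++ [y]).length + 1, j)) :
    ∃ j', ReflTransGen (run eL eR eU eM (v2 ++ [y])) (pI, 1, 0)
      (q, (v2 ++ [y]).length + 1, j') := by
  rcases ReflTransGen.cases_head h1 with h | ⟨c, hc1, hc2⟩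
  · exfalso
    simp only [Prod.mk.injEq, List.length_append, List.length_singleton] at h
    omega
  · obtain ⟨s, i, j0⟩ := c
    rcases hc1 with ⟨g1, g2, g3, g4⟩ | ⟨g1, g2, g3, g4⟩ | ⟨a, g1, g2, b, g3, g4, g5⟩
    · simp only at g1; omega
    · simp only [List.length_append, List.length_singleton] at g1; omega
    · simp only at g1 g2 g3 g4 g5
      have hay : a = y := by
        rw [List.getElem?_append_right (by omega)] at g2
        simpa using g2.symm
      subst hay
      rw [if_neg (by omega)] at g3
      have hj0 : j0 = (v1 ++ [a]).length := by simp; omega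
      obtain ⟨_, hst⟩ := reach_to_stp (eU := eU) hj0 hc2
      simp only at hst
      -- the first step in the second word
      have hfirst : run eL eR eU eM (v2 ++ [a]) (p, v2.length + 1, v2.length)
          (s, if b then v2.length + 2 else v2.length, (v2 ++ [a]).length) := by
        refine Or.inr (Or.inr ⟨a, by simp, ?_, b, ?_, ?_, ?_⟩)
        · simp
        · simp only
          rw [if_neg (by omega)]; exact g3
        · simp
        · simp
      have hdecomp : ∀ v : List A, full eL eR eM (v ++ [a]) =
          [tabL eL] ++ v.map (tabM eM) ++ [tabM eM a, tabR eR] := by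
        intro v; simp [full]
      rw [hdecomp] at hst
      have hl : ([tabL eL] : List (Q → Q → Bool → Prop)).length = 1 := rfl
      have hSim : Sim [tabL eL] (v1.map (tabM eM)) (v2.map (tabM eM)) [tabM eM a, tabR eR]
          (s, (if b then v2.length + 2 else v2.length) + 1) (s, i + 1) := by
        cases b with
        | true =>
          simp only [if_true] at g4
          right; left
          refine ⟨1, by simp; omega, ?_⟩
          have : [tabL eL].length + (List.map (tabM eM) v2).length + 1 + 1
              = v2.length + 2 + 1 := by simp; omega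
          simp only [if_true]
          rw [this]
        | false =>
          simp only [Bool.false_eq_true, if_false] at g4
          have := sim_enter (X := [tabL eL]) (Z1 := v1.map (tabM eM)) (Z2 := v2.map (tabM eM))
            (Y := [tabM eM a, tabR eR]) hb (a2 := (s, v2.length + 1)) (s := s) true
            (by simp only [ent, if_true, List.length_map]
                rw [hl, Nat.add_comm])
          simp only [ent, if_true, List.length_map] at this
          rw [hl, Nat.add_comm 1 v1.length] at this
          simp only [Bool.false_eq_true, if_false]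
          have hi : i = v1.length := by omega
          rw [hi]; exact this
      have hend := sim_run hb hSim hst
      have e1 : (v1 ++ [a]).length + 1 + 1 =
          [tabL eL].length + (List.map (tabM eM) v1).length + 1 + 1 := by simp; omega
      rw [e1] at hend
      have hfin := sim_right hend
      rw [← hdecomp] at hfin
      obtain ⟨i', hi', hr⟩ := stp_to_reach (eU := eU) hfin
      refine ⟨(v2 ++ [a]).length, (h2.tail hfirst).trans ?_⟩
      have : i' = (v2 ++ [a]).length + 1 := by
        simp at hi' ⊢; omega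
      rw [← this]; exact hr

/-- main counting lemma for deterministic machines: prefixes with pairwise equal marked
behaviour which are separated by single last letters are at most `m + 1` in number. -/
theorem det_count [Fintype Q] (hL : ∀ p, (eL p).card ≤ 1) (hR : ∀ p, (eR p).card ≤ 1)
    (hU : ∀ p a, (eU p a).card ≤ 1) (hM : ∀ p a, (eM p a).card ≤ 1)
    {B : Type} [Fintype B] (v : Set B → List A) (y : B → A)
    (hbeh : ∀ E E', beh ((v E).map (tabM eM)) = beh ((v E').map (tabM eM)))
    (hacc : ∀ E q, acc eL eR eU eM pI G (v E ++ [y q]) ↔ q ∈ E) :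
    2 ^ Fintype.card B ≤ Fintype.card Q + 1 := by
  classical
  by_contra hcon
  push Not at hcon
  -- the frontier state
  let P : Set B → Option Q := fun E =>
    if h : ∃ p : Q, ∃ q : B, ReflTransGen (run eL eR eU eM (v E ++ [y q])) (pI, 1, 0)
      (p, (v E).length + 1, (v E).length) then some h.choose else none
  have hP : ∀ E p q, ReflTransGen (run eL eR eU eM (v E ++ [y q])) (pI, 1, 0)
      (p, (v E).length + 1, (v E).length) → P E = some p := by
    intro E p q h
    have hex : ∃ p : Q, ∃ q : B, ReflTransGen (run eL eR eU eM (v E ++ [y q])) (pI, 1, 0)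
      (p, (v E).length + 1, (v E).length) := ⟨p, q, h⟩
    have hPE : P E = some hex.choose := by
      simp only [P]
      rw [dif_pos hex]
    rw [hPE]
    obtain ⟨q', hq'⟩ := hex.choose_spec
    have h' := reach_prefix (y2 := [y q]) (by simp) hq' (by simp)
    rw [frontier_unique hL hR hU hM (by simp) h h']
  have hP' : ∀ E p q, P E = some p → ReflTransGen (run eL eR eU eM (v E ++ [y q])) (pI, 1, 0)
      (p, (v E).length + 1, (v E).length) := by
    intro E p q h
    by_cases hex : ∃ p : Q, ∃ q : B, ReflTransGen (run eL eR eU eM (v E ++ [y q])) (pI, 1, 0)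
      (p, (v E).length + 1, (v E).length)
    · have hPE : P E = some hex.choose := by
        simp only [P]
        rw [dif_pos hex]
      rw [hPE] at h
      have := Option.some.inj h
      obtain ⟨q', hq'⟩ := hex.choose_spec
      rw [this] at hq'
      exact reach_prefix (y2 := [y q]) (by simp) hq' (by simp)
    · simp only [P] at h
      rw [dif_neg hex] at h
      exact absurd h (by simp)
  have hcard : Fintype.card (Option Q) < Fintype.card (Set B) := by
    rw [Fintype.card_option, Fintype.card_set]; exact hcon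
  obtain ⟨E, E', hne, hEE⟩ := Fintype.exists_ne_map_eq_of_card_lt P hcard
  have key : ∀ E E' : Set B, P E = P E' → E ⊆ E' := by
    intro E E' hEE q hq
    have h1 := (hacc E q).mpr hq
    obtain ⟨s, i, j, hr, hi, hG⟩ := h1
    subst hi
    rcases reach_split hr with hle | ⟨p, hp1, hp2⟩
    · exfalso
      have := (reach_inv hr (by simp)).1
      simp only [List.length_append, List.length_singleton] at this hle
      omega
    · have hPE := hP E p q hp1
      rw [hEE] at hPE
      have hr2 := hP' E' p q hPE
      obtain ⟨j', hj'⟩ := acc_transfer (hbeh E E').subset hr2 hp2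
      exact (hacc E' q).mp ⟨s, _, j', hj', rfl, hG⟩
  exact hne (Set.Subset.antisymm (key E E' hEE) (key E' E hEE.symm))

end Pool.Agent.AM1LA
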