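import Mathlib
import Pool.Agent.MP_5436b5_lc.Dyn

set_option autoImplicit false

namespace Pool.Agent.AM1LA

open Relation

/-- states of the small nondeterministic machine -/
inductive Sta (b r : ℕ) : Type
  | st : Sta b r
  | thr (q : Fin b) : Sta b r
  | dn (k : Fin b) (c : Bool) : Sta b r
  | bk : Sta b r
  | ok : Sta b r
  | junk (i : Fin r) : Sta b r

/-- letters -/
inductive Let (b : ℕ) : Type
  | ini : Let b
  | xr (X : Fin b → Bool) : Let b
  | tst (q : Fin b) (X : Fin b → Bool) : Let b
  | ret (q : Fin b) : Let b
  | fin (q : Fin b) : Let b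

def staEquiv (b r : ℕ) : Sta b r ≃ (Fin b ⊕ (Fin b × Bool)) ⊕ (Fin 3 ⊕ Fin r) where
  toFun
    | .st => .inr (.inl 0)
    | .thr q => .inl (.inl q)
    | .dn k c => .inl (.inr (k, c))
    | .bk => .inr (.inl 1)
    | .ok => .inr (.inl 2)
    | .junk i => .inr (.inr i)
  invFun
    | .inl (.inl q) => .thr q
    | .inl (.inr (k, c)) => .dn k c
    | .inr (.inl 0) => .st
    | .inr (.inl 1) => .bk
    | .inr (.inl 2) => .ok
    | .inr (.inr i) => .junk i
  left_inv := by rintro (_ | _ | _ | _ | _ | _) <;> rfl
  right_inv := by
    rintro ((q | ⟨k, c⟩) | (i | i))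
    · rfl
    · rfl
    · fin_cases i <;> rfl
    · rfl

def letEquiv (b : ℕ) : Let b ≃
    Unit ⊕ (Fin b → Bool) ⊕ (Fin b × (Fin b → Bool)) ⊕ Fin b ⊕ Fin b where
  toFun
    | .ini => .inl ()
    | .xr X => .inr (.inl X)
    | .tst q X => .inr (.inr (.inl (q, X)))
    | .ret q => .inr (.inr (.inr (.inl q)))
    | .fin q => .inr (.inr (.inr (.inr q)))
  invFun
    | .inl () => .ini
    | .inr (.inl X) => .xr X
    | .inr (.inr (.inl (q, X))) => .tst q X
    | .inr (.inr (.inr (.inl q))) => .ret q
    | .inr (.inr (.inr (.inr q))) => .fin q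
  left_inv := by rintro (_ | _ | _ | _ | _) <;> rfl
  right_inv := by rintro (⟨⟩ | _ | ⟨_, _⟩ | _ | _) <;> rfl

noncomputable instance (b r : ℕ) : Fintype (Sta b r) := Fintype.ofEquiv _ (staEquiv b r).symm

noncomputable instance (b : ℕ) : Fintype (Let b) := Fintype.ofEquiv _ (letEquiv b).symm

noncomputable instance (b r : ℕ) : DecidableEq (Sta b r) := Classical.decEq _

theorem card_sta (b r : ℕ) : Fintype.card (Sta b r) = 3 * b + 3 + r := by
  rw [Fintype.card_congr (staEquiv b r)]
  simp
  omega

variable {b r : ℕ}

/-- left end marker -/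
noncomputable def mL : Sta b r → Finset (Sta b r × Bool)
  | .dn _ true => {(.bk, true)}
  | _ => ∅

/-- right end marker -/
noncomputable def mR : Sta b r → Finset (Sta b r × Bool)
  | .ok => {(.ok, true)}
  | _ => ∅

/-- unmarked letters -/
noncomputable def mU : Sta b r → Let b → Finset (Sta b r × Bool)
  | .st, .ini => Finset.univ.image fun q => (.thr q, true)
  | .thr q, .xr _ => {(.thr q, true)}
  | .thr q, .tst q' X =>
      if q = q' then Finset.univ.image fun k => (.dn k (X k), false) else {(.thr q, true)}
  | .thr q, .ret _ => {(.thr q, true)}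
  | .thr q, .fin q' => if q = q' then {(.ok, true)} else ∅
  | .bk, .ret q => {(.thr q, true)}
  | _, _ => ∅

/-- marked letters -/
noncomputable def mM : Sta b r → Let b → Finset (Sta b r × Bool)
  | .dn k c, .xr X => {(.dn k (xor c (X k)), false)}
  | .dn k c, _ => {(.dn k c, false)}
  | .bk, _ => {(.bk, true)}
  | _, _ => ∅

/-- semantic state of a prefix: start flag, xor of the letters, set of live threads, flag for
the state `bk`, acceptance flag. -/
structure Sem (b : ℕ) where
  i : Prop
  X : Fin b → Bool
  S : Set (Fin b)
  r : Prop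
  a : Prop

def Sem.init (b : ℕ) : Sem b := ⟨True, fun _ => false, ∅, False, False⟩

def Sem.step (σ : Sem b) : Let b → Sem b
  | .ini => ⟨False, σ.X, {_q | σ.i}, False, False⟩
  | .xr Y => ⟨False, fun k => xor (σ.X k) (Y k), σ.S, False, False⟩
  | .tst q Y => ⟨False, σ.X, σ.S \ {q}, q ∈ σ.S ∧ σ.X ≠ Y, False⟩
  | .ret q => ⟨False, σ.X, {q' | q' ∈ σ.S ∨ (q' = q ∧ σ.r)}, False, False⟩
  | .fin q => ⟨False, σ.X, ∅, False, q ∈ σ.S⟩

def semw (w : List (Let b)) (j : ℕ) : Sem b := (w.take j).foldl Sem.step (Sem.init b)

theorem semw_zero (w : List (Let b)) : semw w 0 = Sem.init b := by simp [semw]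

theorem semw_succ {w : List (Let b)} {j : ℕ} {a : Let b} (h : w[j]? = some a) :
    semw w (j + 1) = (semw w j).step a := by
  have hj := getElem?_lt h
  simp only [semw]
  rw [List.take_add_one, h]
  simp

/-- the invariant of reachable configurations -/
def Inv (w : List (Let b)) (c : Sta b r × ℕ × ℕ) : Prop :=
  match c with
  | (.st, i, j) => i = j + 1 ∧ (semw w j).i
  | (.thr q, i, j) => i = j + 1 ∧ q ∈ (semw w j).S
  | (.dn k c, i, j) => i < j ∧ ∃ Y : Fin b → Bool, ((semw w j).X ≠ Y → (semw w j).r) ∧
      c = xor (Y k) (xor ((semw w j).X k) ((semw w i).X k))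
  | (.bk, i, j) => (semw w j).r ∧ 1 ≤ i ∧ i ≤ j + 1
  | (.ok, i, j) => i = j + 1 ∧ (semw w j).a
  | (.junk _, _, _) => False

theorem inv_step {w : List (Let b)} {c c' : Sta b r × ℕ × ℕ} (hI : Inv w c)
    (h : run mL mR mU mM w c c') : Inv w c' := by
  obtain ⟨s, i, j⟩ := c
  obtain ⟨s', i', j'⟩ := c'
  rcases h with ⟨h1, h2, h3, h4⟩ | ⟨h1, h2, h3, h4⟩ | ⟨a, h1, h2, d, h3, h4, h5⟩
  · simp only at h1 h2 h3 h4
    subst h1 h3 h4
    cases s with
    | dn k c =>
      cases c with
      | false => simp [mL] at h2
      | true =>
        simp only [mL, Finset.mem_singleton, Prod.mk.injEq, and_true] at h2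
        subst h2
        obtain ⟨hj, Y, hY, hc⟩ := hI
        refine ⟨hY ?_, le_rfl, by omega⟩
        intro hXY
        rw [semw_zero, hXY] at hc
        simp [Sem.init] at hc
    | _ => simp [mL] at h2
  · simp only at h2
    cases s <;> simp [mR] at h2
  · simp only at h1 h2 h3 h4 h5
    have hlt := getElem?_lt h2
    obtain ⟨i0, rfl⟩ : ∃ i0, i = i0 + 1 := ⟨i - 1, by omega⟩
    simp only [Nat.add_sub_cancel] at h2
    have hsem := semw_succ h2
    by_cases hij : i0 + 1 ≤ j
    · rw [if_pos hij] at h3
      have hj' : j' = j := by omega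
      subst hj'
      cases s with
      | dn k c =>
        obtain ⟨hj, Y, hY, hc⟩ := hI
        cases a with
        | xr Z =>
          simp only [mM, Finset.mem_singleton, Prod.mk.injEq] at h3
          obtain ⟨rfl, rfl⟩ := h3
          simp only [Bool.false_eq_true, if_false, Nat.add_sub_cancel] at h4
          subst h4
          refine ⟨by omega, Y, hY, ?_⟩
          rw [hc, hsem]
          simp only [Sem.step]
          cases Y k <;> cases (semw w j').X k <;> cases (semw w i').X k <;> cases Z k <;> rfl
        | _ =>
          simp only [mM, Finset.mem_singleton, Prod.mk.injEq] at h3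
          obtain ⟨rfl, rfl⟩ := h3
          simp only [Bool.false_eq_true, if_false, Nat.add_sub_cancel] at h4
          subst h4
          refine ⟨by omega, Y, hY, ?_⟩
          rw [hc, hsem]
          simp only [Sem.step]
      | bk =>
        simp only [mM, Finset.mem_singleton, Prod.mk.injEq] at h3
        obtain ⟨rfl, rfl⟩ := h3
        simp only [if_true] at h4
        obtain ⟨hr, h6, h7⟩ := hI
        exact ⟨hr, by omega, by omega⟩
      | _ => simp [mM] at h3
    · rw [if_neg hij] at h3
      have hj' : j' = i0 + 1 := by omega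
      subst hj'
      cases s with
      | dn k c =>
        obtain ⟨hj, _⟩ := hI
        omega
      | st =>
        obtain ⟨hij', hi⟩ := hI
        have hj0 : i0 = j := by omega
        subst hj0
        cases a with
        | ini =>
          simp only [mU, Finset.mem_image, Finset.mem_univ, true_and, Prod.mk.injEq] at h3
          obtain ⟨q, rfl, rfl⟩ := h3
          simp only [if_true] at h4
          subst h4
          refine ⟨rfl, ?_⟩
          rw [hsem]; exact hi
        | _ => simp [mU] at h3
      | thr q =>
        obtain ⟨hij', hq⟩ := hI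
        have hj0 : i0 = j := by omega
        subst hj0
        cases a with
        | ini => simp [mU] at h3
        | xr Y =>
          simp only [mU, Finset.mem_singleton, Prod.mk.injEq] at h3
          obtain ⟨rfl, rfl⟩ := h3
          simp only [if_true] at h4
          subst h4
          refine ⟨rfl, ?_⟩
          rw [hsem]; exact hq
        | tst q' Y =>
          simp only [mU] at h3
          by_cases hqq : q = q'
          · subst hqq
            rw [if_pos rfl] at h3
            simp only [Finset.mem_image, Finset.mem_univ, true_and, Prod.mk.injEq] at h3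
            obtain ⟨k, rfl, rfl⟩ := h3
            simp only [Bool.false_eq_true, if_false, Nat.add_sub_cancel] at h4
            subst h4
            refine ⟨by omega, Y, ?_, ?_⟩
            · rw [hsem]
              intro hne
              exact ⟨hq, hne⟩
            · rw [hsem]
              simp only [Sem.step]
              cases Y k <;> cases (semw w i').X k <;> rfl
          · rw [if_neg hqq] at h3
            simp only [Finset.mem_singleton, Prod.mk.injEq] at h3
            obtain ⟨rfl, rfl⟩ := h3
            simp only [if_true] at h4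
            subst h4
            refine ⟨rfl, ?_⟩
            rw [hsem]; exact ⟨hq, hqq⟩
        | ret q' =>
          simp only [mU, Finset.mem_singleton, Prod.mk.injEq] at h3
          obtain ⟨rfl, rfl⟩ := h3
          simp only [if_true] at h4
          subst h4
          refine ⟨rfl, ?_⟩
          rw [hsem]; exact Or.inl hq
        | fin q' =>
          simp only [mU] at h3
          by_cases hqq : q = q'
          · subst hqq
            rw [if_pos rfl] at h3
            simp only [Finset.mem_singleton, Prod.mk.injEq] at h3
            obtain ⟨rfl, rfl⟩ := h3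
            simp only [if_true] at h4
            subst h4
            refine ⟨rfl, ?_⟩
            rw [hsem]; exact hq
          · rw [if_neg hqq] at h3
            simp at h3
      | bk =>
        obtain ⟨hr, h6, h7⟩ := hI
        have hj0 : i0 = j := by omega
        subst hj0
        cases a with
        | ret q' =>
          simp only [mU, Finset.mem_singleton, Prod.mk.injEq] at h3
          obtain ⟨rfl, rfl⟩ := h3
          simp only [if_true] at h4
          subst h4
          refine ⟨rfl, ?_⟩
          rw [hsem]; exact Or.inr ⟨rfl, hr⟩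
        | _ => simp [mU] at h3
      | ok => cases a <;> simp [mU] at h3
      | junk _ => cases a <;> simp [mU] at h3

theorem inv_reach {w : List (Let b)} {c : Sta b r × ℕ × ℕ}
    (h : ReflTransGen (run mL mR mU mM w) (.st, 1, 0) c) : Inv w c := by
  induction h with
  | refl => exact ⟨rfl, by rw [semw_zero]; trivial⟩
  | tail _ h ih => exact inv_step ih h

/-- one forward step on an unmarked cell -/
theorem run_unmarked {w : List (Let b)} {j : ℕ} {a : Let b} (h : w[j]? = some a)
    {s s' : Sta b r} {d : Bool} (hm : (s', d) ∈ mU s a) :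
    run mL mR mU mM w (s, j + 1, j) (s', if d then j + 2 else j, j + 1) := by
  refine Or.inr (Or.inr ⟨a, by simp, by simpa using h, d, ?_, ?_, ?_⟩)
  · simp only
    rw [if_neg (by omega)]; exact hm
  · simp
  · simp

/-- one step on a marked cell -/
theorem run_marked {w : List (Let b)} {i j : ℕ} (hij : i < j) {a : Let b} (h : w[i]? = some a)
    {s s' : Sta b r} {d : Bool} (hm : (s', d) ∈ mM s a) :
    run mL mR mU mM w (s, i + 1, j) (s', if d then i + 2 else i, j) := by
  refine Or.inr (Or.inr ⟨a, by simp, by simpa using h, d, ?_, ?_, ?_⟩)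
  · simp only
    rw [if_pos (by omega)]; exact hm
  · simp
  · simp only; omega

theorem mem_mM_bk (a : Let b) : ((Sta.bk : Sta b r), true) ∈ mM Sta.bk a := by
  cases a <;> simp [mM]

theorem reach_bk {w : List (Let b)} {j : ℕ} (hj : j ≤ w.length) {i : ℕ} (hi : i ≤ j) :
    ReflTransGen (run mL mR mU mM w) ((Sta.bk : Sta b r), 1, j) (.bk, i + 1, j) := by
  induction i with
  | zero => exact ReflTransGen.refl
  | succ i ih =>
    have hlt : i < w.length := by omega
    exact (ih (by omega)).tail
      (run_marked (a := w[i]) (by omega) (List.getElem?_eq_getElem hlt) (mem_mM_bk _))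

theorem reach_dn {w : List (Let b)} {j : ℕ} (hj : j < w.length) (k : Fin b) (c : Bool) {i : ℕ}
    (hi : i ≤ j) :
    ReflTransGen (run mL mR mU mM w) ((Sta.dn k c : Sta b r), j, j + 1)
      (.dn k (xor c (xor ((semw w j).X k) ((semw w i).X k))), i, j + 1) := by
  obtain ⟨t, rfl⟩ : ∃ t, j = i + t := ⟨j - i, by omega⟩
  clear hi
  induction t generalizing i with
  | zero =>
    have : xor c (xor ((semw w (i + 0)).X k) ((semw w i).X k)) = c := by
      simp
    rw [this]; exact ReflTransGen.refl
  | succ t ih =>
    have hlt : i < w.length := by omega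
    have h1 := ih (i := i + 1) (by omega)
    have e1 : i + 1 + t = i + (t + 1) := by omega
    rw [e1] at h1
    refine h1.tail ?_
    have hw : w[i]? = some w[i] := List.getElem?_eq_getElem hlt
    have hsem := semw_succ hw
    have hmem : ((Sta.dn k (xor c (xor ((semw w (i + (t + 1))).X k) ((semw w i).X k))) : Sta b r),
        false) ∈ mM (Sta.dn k (xor c (xor ((semw w (i + (t + 1))).X k)
          ((semw w (i + 1)).X k)))) w[i] := by
      rw [hsem]
      cases w[i] with
      | xr Z =>
        simp only [mM, Finset.mem_singleton, Prod.mk.injEq, Sta.dn.injEq, true_and, and_true,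
          Sem.step]
        cases c <;> cases (semw w (i + (t + 1))).X k <;> cases (semw w i).X k <;>
          cases Z k <;> rfl
      | _ => simp [mM, Sem.step]
    have := run_marked (r := r) (w := w) (i := i) (j := i + (t + 1) + 1) (by omega) hw hmem
    simpa using this

theorem complete (w : List (Let b)) (j : ℕ) (hj : j ≤ w.length) :
    ((semw w j).i → ReflTransGen (run mL mR mU mM w) ((Sta.st : Sta b r), 1, 0) (.st, j + 1, j)) ∧
    (∀ q ∈ (semw w j).S,
      ReflTransGen (run mL mR mU mM w) ((Sta.st : Sta b r), 1, 0) (.thr q, j + 1, j)) ∧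
    ((semw w j).r → ReflTransGen (run mL mR mU mM w) ((Sta.st : Sta b r), 1, 0) (.bk, j + 1, j)) ∧
    ((semw w j).a → ReflTransGen (run mL mR mU mM w) ((Sta.st : Sta b r), 1, 0) (.ok, j + 1, j))
    := by
  induction j with
  | zero =>
    rw [semw_zero]
    refine ⟨fun _ => ReflTransGen.refl, ?_, ?_, ?_⟩
    · intro q hq; exact absurd hq (by simp [Sem.init])
    · intro h; exact absurd h (by simp [Sem.init])
    · intro h; exact absurd h (by simp [Sem.init])
  | succ j ih =>
    obtain ⟨ih1, ih2, ih3, ih4⟩ := ih (by omega)
    have hlt : j < w.length := by omega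
    obtain ⟨a, ha⟩ : ∃ a, w[j]? = some a := ⟨w[j], List.getElem?_eq_getElem hlt⟩
    rw [semw_succ ha]
    cases a with
    | ini =>
      refine ⟨fun h => absurd h (by simp [Sem.step]), ?_, fun h => absurd h (by simp [Sem.step]),
        fun h => absurd h (by simp [Sem.step])⟩
      intro q hq
      have hi : (semw w j).i := hq
      exact (ih1 hi).tail (run_unmarked ha (d := true) (by simp [mU]))
    | xr Y =>
      refine ⟨fun h => absurd h (by simp [Sem.step]), ?_, fun h => absurd h (by simp [Sem.step]),
        fun h => absurd h (by simp [Sem.step])⟩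
      intro q hq
      exact (ih2 q hq).tail (run_unmarked ha (d := true) (by simp [mU]))
    | tst q' Y =>
      refine ⟨fun h => absurd h (by simp [Sem.step]), ?_, ?_,
        fun h => absurd h (by simp [Sem.step])⟩
      · intro q hq
        obtain ⟨hq1, hq2⟩ := hq
        refine (ih2 q hq1).tail (run_unmarked ha (d := true) ?_)
        simp only [mU]
        rw [if_neg (by simpa using hq2)]
        simp
      · rintro ⟨hq, hne⟩
        obtain ⟨k, hk⟩ : ∃ k, (semw w j).X k ≠ Y k := by
          by_contra hcon
          push Not at hcon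
          exact hne (funext hcon)
        have h1 : ReflTransGen (run mL mR mU mM w) ((Sta.st : Sta b r), 1, 0)
            (.dn k (Y k), j, j + 1) := by
          refine (ih2 q' hq).tail (run_unmarked ha (d := false) ?_)
          simp [mU]
        have h2 := h1.trans (reach_dn hlt k (Y k) (Nat.zero_le j))
        have hc : xor (Y k) (xor ((semw w j).X k) ((semw w 0).X k)) = true := by
          rw [semw_zero]
          simp only [Sem.init]
          cases hY : Y k <;> cases hX : (semw w j).X k <;> simp_all
        rw [hc] at h2
        have h3 : run mL mR mU mM w ((Sta.dn k true : Sta b r), 0, j + 1) (.bk, 1, j + 1) :=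
          Or.inl ⟨rfl, by simp [mL], rfl, rfl⟩
        exact (h2.tail h3).trans (reach_bk hj le_rfl)
    | ret q' =>
      refine ⟨fun h => absurd h (by simp [Sem.step]), ?_, fun h => absurd h (by simp [Sem.step]),
        fun h => absurd h (by simp [Sem.step])⟩
      intro q hq
      rcases hq with hq | ⟨rfl, hr⟩
      · exact (ih2 q hq).tail (run_unmarked ha (d := true) (by simp [mU]))
      · exact (ih3 hr).tail (run_unmarked ha (d := true) (by simp [mU]))
    | fin q' =>
      refine ⟨fun h => absurd h (by simp [Sem.step]), fun q h => absurd h (by simp [Sem.step]),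
        fun h => absurd h (by simp [Sem.step]), ?_⟩
      intro hq
      exact (ih2 q' hq).tail (run_unmarked ha (d := true) (by simp [mU]))

theorem acc_iff (w : List (Let b)) :
    acc (mL : Sta b r → _) mR mU mM .st {.ok} w ↔ (semw w w.length).a := by
  constructor
  · rintro ⟨q, i, j, hr, hi, q', hq', hq⟩
    have hinv := inv_reach hr
    have hb := reach_inv hr (by simp)
    cases q with
    | ok =>
      obtain ⟨h1, h2⟩ := hinv
      have : j = w.length := by
        simp only at hb; omega
      rw [← this]; exact h2
    | _ => simp [mR] at hq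
  · intro h
    refine ⟨.ok, w.length + 1, w.length, (complete w w.length le_rfl).2.2.2 h, rfl, .ok, by simp,
      by simp [mR]⟩

end Pool.Agent.AM1LA
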