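import Mathlib
import Pool.Agent.MP_5436b5_lc.Mach

set_option autoImplicit false

namespace Pool.Agent.AM1LA

open Relation

variable {b : ℕ}

/-- a quiet semantic state -/
def quiet (X : Fin b → Bool) (S : Set (Fin b)) : Sem b := ⟨False, X, S, False, False⟩

/-- kill thread `q` if the xor equals `Y` -/
def kill (q : Fin b) (Y : Fin b → Bool) : List (Let b) := [.tst q Y, .ret q]

open Classical in
theorem foldl_kill (q : Fin b) (Y X : Fin b → Bool) (S : Set (Fin b)) :
    (kill q Y).foldl Sem.step (quiet X S) = quiet X (if X = Y then S \ {q} else S) := by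
  simp only [kill, List.foldl_cons, List.foldl_nil, Sem.step, quiet]
  congr 1
  ext q'
  by_cases hXY : X = Y
  · simp [hXY]
  · simp only [hXY, Set.mem_sdiff, Set.mem_singleton_iff, ne_eq, not_false_eq_true, and_true,
      if_false, Set.mem_ofPred_eq]
    constructor
    · rintro (⟨h, _⟩ | ⟨rfl, h⟩) <;> exact h
    · intro h
      by_cases hq : q' = q
      · subst hq; exact Or.inr ⟨rfl, h⟩
      · exact Or.inl ⟨h, hq⟩

open Classical in
theorem foldl_killList (q : Fin b) (l : List (Fin b → Bool)) (X : Fin b → Bool)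
    (S : Set (Fin b)) :
    (l.flatMap (kill q)).foldl Sem.step (quiet X S) =
      quiet X (if X ∈ l then S \ {q} else S) := by
  induction l generalizing S with
  | nil => simp
  | cons Y l ih =>
    rw [List.flatMap_cons, List.foldl_append, foldl_kill, ih]
    congr 1
    by_cases h1 : X = Y
    · subst h1
      by_cases h2 : X ∈ l <;> simp [h2]
    · by_cases h2 : X ∈ l <;> simp [h1, h2]

/-- kill thread `q` if the xor is in `φ` -/
noncomputable def kills (q : Fin b) (φ : Finset (Fin b → Bool)) : List (Let b) :=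
  φ.toList.flatMap (kill q)

/-- block: conjugate `kills` by `xr Z` -/
noncomputable def block (q : Fin b) (φ : Finset (Fin b → Bool)) (Z : Fin b → Bool) :
    List (Let b) :=
  [Let.xr Z] ++ kills q φ ++ [Let.xr Z]

open Classical in
theorem foldl_block (q : Fin b) (φ : Finset (Fin b → Bool)) (Z : Fin b → Bool)
    (S : Set (Fin b)) :
    (block q φ Z).foldl Sem.step (quiet (fun _ => false) S) =
      quiet (fun _ => false) (if Z ∈ φ then S \ {q} else S) := by
  rw [block, List.foldl_append, List.foldl_append]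
  have h1 : ([Let.xr Z] : List (Let b)).foldl Sem.step (quiet (fun _ => false) S) = quiet Z S := by
    simp [Sem.step, quiet]
  rw [h1, kills, foldl_killList]
  simp [Sem.step, quiet]

/-- the whole word for a set `E` -/
noncomputable def bigWord (φ1 φ2 : Fin b → Finset (Fin b → Bool)) (Z : Fin b → Fin b → Bool)
    (E : Set (Fin b)) : List (Let b) :=
  open Classical in
  [Let.ini] ++ (List.finRange b).flatMap (fun q => block q (if q ∈ E then φ1 q else φ2 q) (Z q))

theorem foldl_blocks (φ1 φ2 : Fin b → Finset (Fin b → Bool)) (Z : Fin b → Fin b → Bool)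
    (h1 : ∀ q, Z q ∉ φ1 q) (h2 : ∀ q, Z q ∈ φ2 q) (E : Set (Fin b)) (l : List (Fin b))
    (S : Set (Fin b)) :
    (open Classical in
      l.flatMap (fun q => block q (if q ∈ E then φ1 q else φ2 q) (Z q))).foldl Sem.step
        (quiet (fun _ => false) S) =
      quiet (fun _ => false) {q | q ∈ S ∧ (q ∈ l → q ∈ E)} := by
  induction l generalizing S with
  | nil => simp
  | cons q l ih =>
    rw [List.flatMap_cons, List.foldl_append, foldl_block, ih]
    congr 1
    ext q'
    by_cases hq : q ∈ E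
    · simp only [hq, if_true, h1, if_false, Set.mem_ofPred_eq, List.mem_cons]
      constructor
      · rintro ⟨h3, h4⟩
        refine ⟨h3, ?_⟩
        rintro (rfl | h5)
        · exact hq
        · exact h4 h5
      · rintro ⟨h3, h4⟩
        exact ⟨h3, fun h5 => h4 (Or.inr h5)⟩
    · simp only [hq, if_false, h2, if_true, Set.mem_ofPred_eq, List.mem_cons, Set.mem_sdiff,
        Set.mem_singleton_iff]
      constructor
      · rintro ⟨⟨h3, h6⟩, h4⟩
        refine ⟨h3, ?_⟩
        rintro (rfl | h5)
        · exact absurd rfl h6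
        · exact h4 h5
      · rintro ⟨h3, h4⟩
        refine ⟨⟨h3, ?_⟩, fun h5 => h4 (Or.inr h5)⟩
        rintro rfl
        exact hq (h4 (Or.inl rfl))

theorem sem_bigWord (φ1 φ2 : Fin b → Finset (Fin b → Bool)) (Z : Fin b → Fin b → Bool)
    (h1 : ∀ q, Z q ∉ φ1 q) (h2 : ∀ q, Z q ∈ φ2 q) (E : Set (Fin b)) (q : Fin b) :
    (semw (bigWord φ1 φ2 Z E ++ [Let.fin q]) (bigWord φ1 φ2 Z E ++ [Let.fin q]).length).a
      ↔ q ∈ E := by
  simp only [semw, List.take_length]
  rw [List.foldl_append]
  have h3 : (bigWord φ1 φ2 Z E).foldl Sem.step (Sem.init b) = quiet (fun _ => false) E := by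
    rw [bigWord, List.foldl_append]
    have h4 : ([Let.ini] : List (Let b)).foldl Sem.step (Sem.init b)
        = quiet (fun _ => false) Set.univ := by
      simp [Sem.step, Sem.init, quiet]
    rw [h4, foldl_blocks φ1 φ2 Z h1 h2 E]
    congr 1
    ext q'
    simp
  rw [h3]
  simp [Sem.step, quiet]

section det

variable {Q : Type} [Fintype Q] {eM : Q → Let b → Finset (Q × Bool)}

omit [Fintype Q] in
theorem beh_flatMap {ι : Type} (f g : ι → List (Let b))
    (h : ∀ q, beh ((f q).map (tabM eM)) = beh ((g q).map (tabM eM))) (l : List ι)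
    (X : List (Q → Q → Bool → Prop)) :
    beh (X ++ (l.flatMap f).map (tabM eM)) = beh (X ++ (l.flatMap g).map (tabM eM)) := by
  induction l generalizing X with
  | nil => rfl
  | cons q l ih =>
    rw [List.flatMap_cons, List.flatMap_cons, List.map_append, List.map_append,
      ← List.append_assoc, ← List.append_assoc]
    rw [beh_congr (X := X) (Y := (l.flatMap f).map (tabM eM)) (h q)]
    exact ih _

theorem exists_pair (hcard : 2 ^ ((2 * Fintype.card Q) ^ 2) < 2 ^ (2 ^ b)) (q : Fin b) :
    ∃ (φ1 φ2 : Finset (Fin b → Bool)) (Z : Fin b → Bool), Z ∉ φ1 ∧ Z ∈ φ2 ∧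
      beh ((kills q φ1).map (tabM eM)) = beh ((kills q φ2).map (tabM eM)) := by
  classical
  have hc : Fintype.card (Set ((Q × Bool) × (Q × Bool))) <
      Fintype.card (Finset (Fin b → Bool)) := by
    rw [Fintype.card_set, Fintype.card_finset]
    simp only [Fintype.card_prod, Fintype.card_bool, Fintype.card_fun, Fintype.card_fin]
    convert hcard using 2
    ring
  obtain ⟨φ1, φ2, hne, heq⟩ := Fintype.exists_ne_map_eq_of_card_lt
    (fun φ : Finset (Fin b → Bool) => beh ((kills q φ).map (tabM eM))) hc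
  by_cases hsub : φ2 ⊆ φ1
  · have : ¬ φ1 ⊆ φ2 := fun h => hne (Finset.Subset.antisymm h hsub)
    obtain ⟨Z, hZ1, hZ2⟩ := Finset.not_subset.mp this
    exact ⟨φ2, φ1, Z, hZ2, hZ1, heq.symm⟩
  · obtain ⟨Z, hZ1, hZ2⟩ := Finset.not_subset.mp hsub
    exact ⟨φ1, φ2, Z, hZ2, hZ1, heq⟩

theorem det_bound {r : ℕ} (eL eR : Q → Finset (Q × Bool)) (eU : Q → Let b → Finset (Q × Bool))
    (pI : Q) (G : Finset Q)
    (hL : ∀ p, (eL p).card ≤ 1) (hR : ∀ p, (eR p).card ≤ 1)
    (hU : ∀ p a, (eU p a).card ≤ 1) (hM : ∀ p a, (eM p a).card ≤ 1)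
    (heq : ∀ w : List (Let b), acc (mL : Sta b r → _) mR mU mM .st {.ok} w ↔
      acc eL eR eU eM pI G w) :
    2 ^ b ≤ (2 * Fintype.card Q) ^ 2 := by
  by_contra hcon
  push Not at hcon
  have hlt : 2 ^ ((2 * Fintype.card Q) ^ 2) < 2 ^ (2 ^ b) :=
    Nat.pow_lt_pow_right (by norm_num) hcon
  choose φ1 φ2 Z hZ1 hZ2 hbeh using fun q : Fin b => exists_pair (Q := Q) (eM := eM) hlt q
  have hacc : ∀ (E : Set (Fin b)) (q : Fin b),
      acc eL eR eU eM pI G (bigWord φ1 φ2 Z E ++ [Let.fin q]) ↔ q ∈ E := by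
    intro E q
    rw [← heq, acc_iff, sem_bigWord φ1 φ2 Z hZ1 hZ2]
  have hblock : ∀ (E E' : Set (Fin b)) (q : Fin b), open Classical in
      beh ((block q (if q ∈ E then φ1 q else φ2 q) (Z q)).map (tabM eM)) =
      beh ((block q (if q ∈ E' then φ1 q else φ2 q) (Z q)).map (tabM eM)) := by
    intro E E' q
    simp only [block, List.map_append]
    apply beh_congr
    split <;> split
    · rfl
    · exact hbeh q
    · exact (hbeh q).symm
    · rfl
  have hbig : ∀ E E' : Set (Fin b), beh ((bigWord φ1 φ2 Z E).map (tabM eM)) =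
      beh ((bigWord φ1 φ2 Z E').map (tabM eM)) := by
    intro E E'
    simp only [bigWord, List.map_append]
    exact beh_flatMap _ _ (hblock E E') _ _
  have := det_count hL hR hU hM (fun E => bigWord φ1 φ2 Z E) (fun q => Let.fin q) hbig hacc
  rw [Fintype.card_fin] at this
  have hpos : 0 < Fintype.card Q := Fintype.card_pos_iff.mpr ⟨pI⟩
  nlinarith

end det

end Pool.Agent.AM1LA
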